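import Mathlib

/-! # Ground states of spin glasses on graphs with finitely many thin ends: the deterministic part -/

set_option autoImplicit false

namespace Pool.Agent.X73.EA

open Finset Filter

variable {V E : Type}

/-- bonds with exactly one end in `A` -/
def cut (src tgt : E → V) (A : Set V) : Set E := {e | ¬ (src e ∈ A ↔ tgt e ∈ A)}

/-- local finiteness -/
def LocFin (src tgt : E → V) : Prop := ∀ v, {e | src e = v ∨ tgt e = v}.Finite

variable {src tgt : E → V}

lemma star_finite (h : LocFin src tgt) {A : Set V} (hA : A.Finite) :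
    {e | src e ∈ A ∨ tgt e ∈ A}.Finite := by
  have : {e | src e ∈ A ∨ tgt e ∈ A} ⊆ ⋃ v ∈ A, {e | src e = v ∨ tgt e = v} := by
    intro e he
    rw [Set.mem_iUnion₂]
    rcases he with he | he
    · exact ⟨_, he, Or.inl rfl⟩
    · exact ⟨_, he, Or.inr rfl⟩
  exact (hA.biUnion fun v _ => h v).subset this

lemma cut_finite (h : LocFin src tgt) {A : Set V} (hA : A.Finite) : (cut src tgt A).Finite :=
  (star_finite h hA).subset (by
    intro e he
    simp only [cut, Set.mem_ofPred_eq] at he ⊢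
    tauto)

/-- the bonds with exactly one end in the finite set `A` -/
noncomputable def bd (h : LocFin src tgt) (A : Finset V) : Finset E :=
  (cut_finite h A.finite_toSet).toFinset

lemma mem_bd (h : LocFin src tgt) (A : Finset V) (e : E) :
    e ∈ bd h A ↔ ¬ (src e ∈ A ↔ tgt e ∈ A) := by
  simp [bd, cut]

def Conf (σ : V → ℝ) : Prop := ∀ v, σ v = 1 ∨ σ v = -1

def Gr (h : LocFin src tgt) (J : E → ℝ) (σ : V → ℝ) : Prop :=
  Conf σ ∧ ∀ A : Finset V, A.Nonempty → 0 < ∑ e ∈ bd h A, J e * (σ (src e) * σ (tgt e))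

/-- the agreement set -/
def ag (σ τ : V → ℝ) : Set V := {v | σ v = τ v}

lemma prod_same {σ τ : V → ℝ} (hσ : Conf σ) (hτ : Conf τ) {v w : V}
    (h : v ∈ ag σ τ ↔ w ∈ ag σ τ) : τ v * τ w = σ v * σ w := by
  simp only [ag, Set.mem_ofPred_eq] at h
  rcases hσ v with a | a <;> rcases hσ w with b | b <;> rcases hτ v with c | c <;>
    rcases hτ w with d | d <;> simp only [a, b, c, d] at h ⊢ <;>
    first | (norm_num at h; done) | norm_num

lemma prod_diff {σ τ : V → ℝ} (hσ : Conf σ) (hτ : Conf τ) {v w : V}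
    (h : ¬ (v ∈ ag σ τ ↔ w ∈ ag σ τ)) : τ v * τ w = -(σ v * σ w) := by
  simp only [ag, Set.mem_ofPred_eq] at h
  rcases hσ v with a | a <;> rcases hσ w with b | b <;> rcases hτ v with c | c <;>
    rcases hτ w with d | d <;> simp only [a, b, c, d] at h ⊢ <;>
    first | (norm_num at h; done) | norm_num

lemma cut_compl (A : Set V) : cut src tgt Aᶜ = cut src tgt A := by
  ext e
  simp only [cut, Set.mem_ofPred_eq, Set.mem_compl_iff]
  tauto

/-- no finite set is surrounded by disagreement -/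
lemma no_island {h : LocFin src tgt} {J : E → ℝ} {σ τ : V → ℝ} (hσ : Gr h J σ) (hτ : Gr h J τ)
    (A : Finset V) (hA : A.Nonempty) : ¬ cut src tgt (A : Set V) ⊆ cut src tgt (ag σ τ) := by
  intro hsub
  have h1 := hσ.2 A hA
  have h2 := hτ.2 A hA
  have h3 : ∑ e ∈ bd h A, J e * (τ (src e) * τ (tgt e)) =
      - ∑ e ∈ bd h A, J e * (σ (src e) * σ (tgt e)) := by
    rw [← Finset.sum_neg_distrib]
    refine Finset.sum_congr rfl fun e he => ?_
    have he' : e ∈ cut src tgt (ag σ τ) := hsub (by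
      rw [mem_bd] at he
      simpa [cut] using he)
    rw [prod_diff hσ.1 hτ.1 he']
    ring
  linarith

/-- the bonds inside `C` -/
noncomputable def inn (h : LocFin src tgt) (C : Finset V) : Finset E := by
  classical
  exact (star_finite h C.finite_toSet).toFinset.filter fun e => src e ∈ C ∧ tgt e ∈ C

lemma mem_inn (h : LocFin src tgt) (C : Finset V) (e : E) :
    e ∈ inn h C ↔ src e ∈ C ∧ tgt e ∈ C := by
  simp only [inn, Finset.mem_filter, Set.Finite.mem_toFinset, Set.mem_ofPred_eq, Finset.mem_coe]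
  exact ⟨fun hh => hh.2, fun hh => ⟨Or.inl hh.1, hh⟩⟩

/-- the couplings inside the gate dominate those at its boundary -/
def Good (h : LocFin src tgt) (J : E → ℝ) (C : Finset V) (ε : ℝ) : Prop :=
  (∀ S ⊆ inn h C, S.Nonempty → ∀ c : E → ℝ, (∀ e, c e = 1 ∨ c e = -1) →
    ∑ e ∈ bd h C, |J e| < |∑ e ∈ S, J e * c e|) ∧ ∑ e ∈ bd h C, |J e| < ε

/-- connectedness of a finite set of vertices -/
def Conn (src tgt : E → V) (C : Set V) : Prop :=
  ∀ A ⊆ C, A.Nonempty → A ≠ C → ∃ e, src e ∈ C ∧ tgt e ∈ C ∧ ¬ (src e ∈ A ↔ tgt e ∈ A)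

lemma conf_mul {σ : V → ℝ} (hσ : Conf σ) (v w : V) : σ v * σ w = 1 ∨ σ v * σ w = -1 := by
  rcases hσ v with a | a <;> rcases hσ w with b | b <;> rw [a, b] <;> norm_num

lemma abs_conf_mul {σ : V → ℝ} (hσ : Conf σ) (v w : V) : |σ v * σ w| = 1 := by
  rcases conf_mul hσ v w with a | a <;> rw [a] <;> norm_num

lemma abs_part_le {σ : V → ℝ} (hσ : Conf σ) (J : E → ℝ) (T B : Finset E) (hT : T ⊆ B) :
    |∑ e ∈ T, J e * (σ (src e) * σ (tgt e))| ≤ ∑ e ∈ B, |J e| := by
  refine (Finset.abs_sum_le_sum_abs _ _).trans ?_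
  calc ∑ e ∈ T, |J e * (σ (src e) * σ (tgt e))| = ∑ e ∈ T, |J e| := by
        refine Finset.sum_congr rfl fun e _ => ?_
        rw [abs_mul, abs_conf_mul hσ, mul_one]
    _ ≤ ∑ e ∈ B, |J e| :=
        Finset.sum_le_sum_of_subset_of_nonneg hT fun e _ _ => abs_nonneg _

/-- two ground states agree or disagree everywhere on a good gate -/
lemma gate_const {h : LocFin src tgt} {J : E → ℝ} {σ τ : V → ℝ} (hσ : Gr h J σ) (hτ : Gr h J τ)
    {C : Finset V} (hC : Conn src tgt (C : Set V)) {ε : ℝ} (hg : Good h J C ε) :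
    (C : Set V) ⊆ ag σ τ ∨ (C : Set V) ⊆ (ag σ τ)ᶜ := by
  classical
  by_contra hcon
  rw [not_or] at hcon
  obtain ⟨h1, h2⟩ := hcon
  set A : Finset V := C.filter fun v => v ∈ ag σ τ with hA
  have hAC : A ⊆ C := Finset.filter_subset _ _
  have hAne : A.Nonempty := by
    rw [Set.not_subset] at h2
    obtain ⟨v, hv, hv'⟩ := h2
    exact ⟨v, by rw [hA, Finset.mem_filter]; exact ⟨by simpa using hv, by simpa using hv'⟩⟩
  have hAne' : (A : Set V) ≠ C := by
    intro heq
    apply h1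
    intro v hv
    rw [← heq] at hv
    have : v ∈ A := by simpa using hv
    rw [hA, Finset.mem_filter] at this
    exact this.2
  obtain ⟨e₀, he1, he2, he3⟩ := hC A (by exact_mod_cast hAC) (by simpa using hAne) hAne'
  set S := (bd h A).filter fun e => src e ∈ C ∧ tgt e ∈ C with hS
  set T := (bd h A).filter fun e => ¬ (src e ∈ C ∧ tgt e ∈ C) with hT
  have hSne : S.Nonempty := by
    refine ⟨e₀, ?_⟩
    rw [hS, Finset.mem_filter, mem_bd]
    refine ⟨by simpa using he3, by simpa using he1, by simpa using he2⟩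
  have hSi : S ⊆ inn h C := by
    intro e he
    rw [hS, Finset.mem_filter] at he
    rw [mem_inn]
    exact he.2
  have hTb : T ⊆ bd h C := by
    intro e he
    rw [hT, Finset.mem_filter, mem_bd] at he
    rw [mem_bd]
    have g1 : src e ∈ A → src e ∈ C := fun hh => hAC hh
    have g2 : tgt e ∈ A → tgt e ∈ C := fun hh => hAC hh
    tauto
  have hsplit : ∀ ρ : V → ℝ, ∑ e ∈ bd h A, J e * (ρ (src e) * ρ (tgt e)) =
      ∑ e ∈ S, J e * (ρ (src e) * ρ (tgt e)) + ∑ e ∈ T, J e * (ρ (src e) * ρ (tgt e)) := by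
    intro ρ
    rw [hS, hT, Finset.sum_filter_add_sum_filter_not]
  have hneg : ∑ e ∈ S, J e * (τ (src e) * τ (tgt e)) =
      - ∑ e ∈ S, J e * (σ (src e) * σ (tgt e)) := by
    rw [← Finset.sum_neg_distrib]
    refine Finset.sum_congr rfl fun e he => ?_
    rw [hS, Finset.mem_filter, mem_bd] at he
    obtain ⟨he1, he2, he3⟩ := he
    have : ¬ (src e ∈ ag σ τ ↔ tgt e ∈ ag σ τ) := by
      intro hiff
      apply he1
      rw [hA, Finset.mem_filter, Finset.mem_filter]
      tauto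
    rw [prod_diff hσ.1 hτ.1 this]
    ring
  have k1 := hσ.2 A hAne
  have k2 := hτ.2 A hAne
  rw [hsplit] at k1 k2
  rw [hneg] at k2
  have k3 := abs_part_le (src := src) (tgt := tgt) hσ.1 J T _ hTb
  have k4 := abs_part_le (src := src) (tgt := tgt) hτ.1 J T _ hTb
  have k5 := hg.1 S hSi hSne (fun e => σ (src e) * σ (tgt e)) (fun e => conf_mul hσ.1 _ _)
  have k6 : |∑ e ∈ S, J e * (σ (src e) * σ (tgt e))| < ∑ e ∈ bd h C, |J e| := by
    rw [abs_lt]
    constructor
    · linarith [le_abs_self (∑ e ∈ T, J e * (σ (src e) * σ (tgt e)))]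
    · linarith [le_abs_self (∑ e ∈ T, J e * (τ (src e) * τ (tgt e)))]
  linarith

/-- The data of finitely many thin ends: gates `C i n` and tails `U i n`. -/
structure Ends (src tgt : E → V) (k : ℕ) (C : Fin k → ℕ → Finset V) (U : Fin k → ℕ → Set V) :
    Prop where
  ne : ∀ i n, (C i n).Nonempty
  conn : ∀ i n, Conn src tgt (C i n : Set V)
  sep : ∀ i n e, (src e ∈ U i n → tgt e ∈ U i n ∨ tgt e ∈ C i n) ∧
    (tgt e ∈ U i n → src e ∈ U i n ∨ src e ∈ C i n)
  disj : ∀ i n, ∀ v ∈ C i n, v ∉ U i n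
  gate : ∀ i n, ∀ v ∈ C i (n + 1), v ∈ U i n
  tail : ∀ i n, ∀ v ∈ U i (n + 1), v ∈ U i n
  fin : ∀ i n, {v | v ∈ U i n ∧ v ∉ U i (n + 1)}.Finite
  inter : ∀ i v, ∃ n, v ∉ U i n
  core : {v | ∀ i, v ∉ U i 0}.Finite

section

variable {k : ℕ} {C : Fin k → ℕ → Finset V} {U : Fin k → ℕ → Set V}

lemma Ends.mono (hE : Ends src tgt k C U) (i : Fin k) {n m : ℕ} (hnm : n ≤ m) :
    ∀ v ∈ U i m, v ∈ U i n := by
  induction m, hnm using Nat.le_induction with
  | base => exact fun v hv => hv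
  | succ m _ ih => exact fun v hv => ih v (hE.tail i m v hv)

lemma Ends.gate' (hE : Ends src tgt k C U) (i : Fin k) {n m : ℕ} (hnm : n < m) :
    ∀ v ∈ C i m, v ∈ U i n := by
  intro v hv
  obtain ⟨m, rfl⟩ : ∃ m', m = m' + 1 := ⟨m - 1, by omega⟩
  exact hE.mono i (by omega) v (hE.gate i m v hv)

lemma Ends.fin' (hE : Ends src tgt k C U) (i : Fin k) {n m : ℕ} (hnm : n ≤ m) :
    {v | v ∈ U i n ∧ v ∉ U i m}.Finite := by
  induction m, hnm using Nat.le_induction with
  | base =>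
    convert Set.finite_empty using 1
    ext v
    simp
  | succ m _ ih =>
    refine (ih.union (hE.fin i m)).subset ?_
    intro v hv
    by_cases h : v ∈ U i m
    · exact Or.inr ⟨h, hv.2⟩
    · exact Or.inl ⟨hv.1, h⟩

lemma Ends.core' (hE : Ends src tgt k C U) (m : Fin k → ℕ) : {v | ∀ i, v ∉ U i (m i)}.Finite := by
  refine (hE.core.union (Set.finite_iUnion fun i => hE.fin' i (Nat.zero_le (m i)))).subset ?_
  intro v hv
  by_cases h : ∀ i, v ∉ U i 0
  · exact Or.inl h
  · push Not at h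
    obtain ⟨i, hi⟩ := h
    exact Or.inr (Set.mem_iUnion.2 ⟨i, hi, hv i⟩)

lemma Ends.avoid (hE : Ends src tgt k C U) (v : V) (i : Fin k) :
    ∀ᶠ n in atTop, v ∉ U i n ∧ v ∉ C i n := by
  obtain ⟨n, hn⟩ := hE.inter i v
  filter_upwards [eventually_gt_atTop n] with m hm
  exact ⟨fun h => hn (hE.mono i hm.le v h), fun h => hn (hE.gate' i hm v h)⟩

/-- between two gates on the same side everything is on this side -/
lemma Ends.between (hE : Ends src tgt k C U) {X : Set V}
    (hX : ∀ A : Finset V, A.Nonempty → ¬ cut src tgt (A : Set V) ⊆ cut src tgt X) (i : Fin k)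
    {n m : ℕ} (hnm : n < m) (hn : (C i n : Set V) ⊆ X) (hm : (C i m : Set V) ⊆ X) :
    ∀ v, v ∈ U i n → v ∉ U i m → v ∈ X := by
  classical
  intro v₀ hv1 hv2
  by_contra hv3
  have hfin : {v | v ∉ X ∧ v ∈ U i n ∧ v ∉ U i m}.Finite :=
    (hE.fin' i hnm.le).subset fun v hv => hv.2
  have key : ∀ a b : V, (∀ j, (a ∈ U i j → b ∈ U i j ∨ b ∈ C i j) ∧
      (b ∈ U i j → a ∈ U i j ∨ a ∈ C i j)) → (a ∉ X ∧ a ∈ U i n ∧ a ∉ U i m) →
      ¬ (b ∉ X ∧ b ∈ U i n ∧ b ∉ U i m) → b ∈ X := by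
    rintro a b hsep ⟨g1, g2, g3⟩ hb
    by_contra hbX
    rcases (hsep n).1 g2 with hb1 | hb1
    · have hb2 : b ∈ U i m := by
        by_contra hcon
        exact hb ⟨hbX, hb1, hcon⟩
      rcases (hsep m).2 hb2 with g4 | g4
      · exact g3 g4
      · exact g1 (hm (by simpa using g4))
    · exact hbX (hn (by simpa using hb1))
  apply hX hfin.toFinset ⟨v₀, by simp [hv1, hv2, hv3]⟩
  intro e he
  simp only [cut, Set.Finite.coe_toFinset, Set.mem_ofPred_eq] at he ⊢
  intro hcon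
  apply he
  constructor
  · intro h1
    by_contra h2
    exact h1.1 (hcon.2 (key _ _ (fun j => hE.sep i j e) h1 h2))
  · intro h1
    by_contra h2
    exact h1.1 (hcon.1 (key _ _ (fun j => ⟨(hE.sep i j e).2, (hE.sep i j e).1⟩) h1 h2))

end

end Pool.Agent.X73.EA
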