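import Pool.Agent.X73.EA.Uniq

/-! # Existence of ground states -/

set_option autoImplicit false

namespace Pool.Agent.X73.EA

open Finset Filter

variable {V E : Type} {src tgt : E → V}

/-- the configuration with the minus spins in `B` -/
noncomputable def cf (B : Finset V) (v : V) : ℝ := by
  classical exact if v ∈ B then -1 else 1

lemma cf_conf (B : Finset V) : Conf (cf B) := by
  intro v
  unfold cf
  split_ifs
  · exact Or.inr rfl
  · exact Or.inl rfl

lemma cf_symm [DecidableEq V] (A B : Finset V) (v : V) :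
    cf (symmDiff B A) v = if v ∈ A then -cf B v else cf B v := by
  unfold cf
  by_cases h1 : v ∈ A <;> by_cases h2 : v ∈ B <;> simp [h1, h2, Finset.mem_symmDiff]

/-- finite volume minimisers -/
lemma exists_min (h : LocFin src tgt) (J : E → ℝ) (L : Finset V) :
    ∃ σ : V → ℝ, Conf σ ∧ ∀ A ⊆ L, 0 ≤ ∑ e ∈ bd h A, J e * (σ (src e) * σ (tgt e)) := by
  classical
  set T : Finset E := (star_finite h L.finite_toSet).toFinset with hT
  obtain ⟨B, hB, hmax⟩ := Finset.exists_max_image L.powerset
    (fun B => ∑ e ∈ T, J e * (cf B (src e) * cf B (tgt e))) ⟨∅, by simp⟩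
  refine ⟨cf B, cf_conf B, fun A hA => ?_⟩
  have h1 := hmax (symmDiff B A) (by
    rw [Finset.mem_powerset] at hB ⊢
    intro v hv
    rw [Finset.mem_symmDiff] at hv
    rcases hv with hv | hv
    · exact hB hv.1
    · exact hA hv.1)
  have hsub : bd h A ⊆ T := by
    intro e he
    rw [mem_bd] at he
    rw [hT, Set.Finite.mem_toFinset, Set.mem_ofPred_eq]
    have g1 : src e ∈ A → src e ∈ (L : Set V) := fun hh => by simpa using hA hh
    have g2 : tgt e ∈ A → tgt e ∈ (L : Set V) := fun hh => by simpa using hA hh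
    tauto
  have h2 : ∑ e ∈ T, J e * (cf B (src e) * cf B (tgt e)) -
      ∑ e ∈ T, J e * (cf (symmDiff B A) (src e) * cf (symmDiff B A) (tgt e)) =
      2 * ∑ e ∈ bd h A, J e * (cf B (src e) * cf B (tgt e)) := by
    rw [← Finset.sum_sub_distrib, ← Finset.sum_sdiff hsub, Finset.mul_sum]
    have h3 : ∑ e ∈ T \ bd h A, (J e * (cf B (src e) * cf B (tgt e)) -
        J e * (cf (symmDiff B A) (src e) * cf (symmDiff B A) (tgt e))) = 0 := by
      refine Finset.sum_eq_zero fun e he => ?_
      rw [Finset.mem_sdiff, mem_bd, not_not] at he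
      rw [cf_symm, cf_symm]
      by_cases h4 : src e ∈ A
      · rw [if_pos h4, if_pos (he.2.1 h4)]; ring
      · rw [if_neg h4, if_neg fun h5 => h4 (he.2.2 h5)]; ring
    rw [h3, zero_add]
    refine Finset.sum_congr rfl fun e he => ?_
    rw [mem_bd] at he
    rw [cf_symm, cf_symm]
    by_cases h4 : src e ∈ A
    · rw [if_pos h4, if_neg fun h5 => he ⟨fun _ => h5, fun _ => h4⟩]; ring
    · have h5 : tgt e ∈ A := by
        by_contra h5
        exact he ⟨fun h6 => absurd h6 h4, fun h6 => absurd h6 h5⟩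
      rw [if_neg h4, if_pos h5]; ring
  have h1' : ∑ e ∈ T, J e * (cf (symmDiff B A) (src e) * cf (symmDiff B A) (tgt e)) ≤
      ∑ e ∈ T, J e * (cf B (src e) * cf B (tgt e)) := h1
  linarith

/-- **Existence.** -/
theorem exists_gr [Infinite V] (h : LocFin src tgt)
    (hV : ∀ A : Set V, A.Nonempty → A ≠ Set.univ → (cut src tgt A).Nonempty) {J : E → ℝ}
    (hJ : ∀ F : Finset E, F.Nonempty → ∀ c : E → ℝ, (∀ e, c e = 1 ∨ c e = -1) →
      ∑ e ∈ F, J e * c e ≠ 0) : ∃ σ, Gr h J σ := by
  classical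
  choose σL hσL1 hσL2 using fun L => exists_min h J L
  set 𝒰 : Ultrafilter (Finset V) := Ultrafilter.of atTop with hU
  have hle : (𝒰 : Filter (Finset V)) ≤ atTop := Ultrafilter.of_le _
  set σ : V → ℝ := fun v => if ∀ᶠ L in 𝒰, σL L v = 1 then 1 else -1 with hσ
  have hev : ∀ v, ∀ᶠ L in 𝒰, σL L v = σ v := by
    intro v
    by_cases h1 : ∀ᶠ L in 𝒰, σL L v = 1
    · have : σ v = 1 := by rw [hσ]; exact if_pos h1
      rw [this]; exact h1
    · have : σ v = -1 := by rw [hσ]; exact if_neg h1
      rw [this]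
      have h2 := Ultrafilter.eventually_not.2 h1
      filter_upwards [h2] with L hL
      rcases hσL1 L v with h3 | h3
      · exact absurd h3 hL
      · exact h3
  refine ⟨σ, fun v => ?_, fun A hA => ?_⟩
  · by_cases h1 : ∀ᶠ L in 𝒰, σL L v = 1
    · left; rw [hσ]; exact if_pos h1
    · right; rw [hσ]; exact if_neg h1
  · have h1 : ∀ᶠ L in 𝒰, A ⊆ L := hle (eventually_ge_atTop A)
    have h2 : ∀ᶠ L in 𝒰, ∀ e ∈ bd h A, σL L (src e) = σ (src e) ∧ σL L (tgt e) = σ (tgt e) := by
      rw [Filter.eventually_all_finset]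
      intro e _
      exact (hev _).and (hev _)
    obtain ⟨L, hL1, hL2⟩ := (h1.and h2).exists
    have h3 := hσL2 L A hL1
    have h4 : ∑ e ∈ bd h A, J e * (σL L (src e) * σL L (tgt e)) =
        ∑ e ∈ bd h A, J e * (σ (src e) * σ (tgt e)) :=
      Finset.sum_congr rfl fun e he => by rw [(hL2 e he).1, (hL2 e he).2]
    rw [h4] at h3
    have hc : Conf σ := fun v => by
      by_cases h1 : ∀ᶠ L in 𝒰, σL L v = 1
      · left; rw [hσ]; exact if_pos h1
      · right; rw [hσ]; exact if_neg h1
    refine lt_of_le_of_ne h3 (Ne.symm (hJ _ ?_ (fun e => σ (src e) * σ (tgt e))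
      fun e => conf_mul hc _ _))
    have hne : (A : Set V) ≠ Set.univ := by
      intro hcon
      have : (Set.univ : Set V).Finite := by rw [← hcon]; exact A.finite_toSet
      exact Set.infinite_univ this
    obtain ⟨e, he⟩ := hV (A : Set V) (by simpa using hA) hne
    exact ⟨e, (mem_bd h A e).2 (by simpa [cut] using he)⟩

end Pool.Agent.X73.EA
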