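import Pool.Agent.X73.EA.Exist
import Pool.Agent.TH761.EA.Shift

/-! # Good gates occur infinitely often -/

set_option autoImplicit false

open Finset MeasureTheory ProbabilityTheory

namespace Pool.Agent.X73.EA

/-! ### Scales -/

/-- a sequence of windows on rapidly decreasing scales -/
lemma scales (μ : Measure ℝ) (hat : μ {0} = 0)
    (h0 : ∀ ε : ℝ, 0 < ε → 0 < μ {x : ℝ | |x| < ε}) (K : ℝ) (hK : 1 ≤ K) (ε : ℝ) (hε : 0 < ε) :
    ∃ b t : ℕ → ℝ, (∀ j, 0 < b j) ∧ (∀ j, b j < t j) ∧ (∀ j, K * t (j + 1) ≤ b j) ∧ t 0 ≤ ε ∧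
      ∀ j, 0 < μ {x : ℝ | b j ≤ |x| ∧ |x| < t j} := by
  have hstep : ∀ t : ℝ, 0 < t → ∃ b, 0 < b ∧ b < t ∧ 0 < μ {x : ℝ | b ≤ |x| ∧ |x| < t} := by
    intro t ht
    by_contra hcon
    push Not at hcon
    have hsub : {x : ℝ | |x| < t} ⊆ {0} ∪ ⋃ n : ℕ, {x : ℝ | t / (n + 2) ≤ |x| ∧ |x| < t} := by
      intro x hx
      by_cases hx0 : x = 0
      · left; exact hx0
      · right
        have hpos : 0 < |x| := abs_pos.2 hx0
        obtain ⟨n, hn⟩ := exists_nat_ge (t / |x|)
        refine Set.mem_iUnion.2 ⟨n, ?_, hx⟩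
        rw [div_le_iff₀ (by positivity)]
        rw [div_le_iff₀ hpos] at hn
        nlinarith
    have hz : μ ({0} ∪ ⋃ n : ℕ, {x : ℝ | t / (n + 2) ≤ |x| ∧ |x| < t}) = 0 := by
      rw [measure_union_null_iff]
      refine ⟨hat, measure_iUnion_null fun n => ?_⟩
      have h1 : (0 : ℝ) < t / (n + 2) := by positivity
      have h2 : t / ((n : ℝ) + 2) < t := by
        rw [div_lt_iff₀ (by positivity)]
        nlinarith [Nat.cast_nonneg (α := ℝ) n]
      exact le_antisymm (hcon _ h1 h2) bot_le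
    exact absurd (measure_mono_null hsub hz) (h0 t ht).ne'
  choose! β hβ1 hβ2 hβ3 using hstep
  have hK0 : 0 < K := by linarith
  set t : ℕ → ℝ := fun j => Nat.rec ε (fun _ x => β x / K) j with ht
  have ht0 : t 0 = ε := rfl
  have hts : ∀ j, t (j + 1) = β (t j) / K := fun j => rfl
  have htp : ∀ j, 0 < t j := by
    intro j
    induction j with
    | zero => rw [ht0]; exact hε
    | succ j ih => rw [hts]; exact div_pos (hβ1 _ ih) hK0
  refine ⟨fun j => β (t j), t, fun j => hβ1 _ (htp j), fun j => hβ2 _ (htp j), fun j => ?_,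
    le_of_eq ht0, fun j => hβ3 _ (htp j)⟩
  rw [hts, mul_div_cancel₀ _ hK0.ne']

/-- If the numbers `x e`, `e ∈ S`, are on different scales and the others, `e ∈ B`, are on a smaller
scale, then the signed sums over `S` dominate. -/
lemma dominate {E : Type} [DecidableEq E] (b t : ℕ → ℝ) (K : ℝ) (hb : ∀ j, 0 < b j) (hbt : ∀ j, b j < t j)
    (hK : 1 ≤ K) (hs : ∀ j, K * t (j + 1) ≤ b j) (S B : Finset E) (r : E → ℕ) (x : E → ℝ)
    (hSB : Disjoint S B)
    (hcard : ((S ∪ B).card : ℝ) ≤ K) (hinj : ∀ e ∈ S, ∀ e' ∈ S ∪ B, e ≠ e' → r e ≠ r e')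
    (hle : ∀ e ∈ S, ∀ e' ∈ B, r e < r e')
    (hx : ∀ e ∈ S ∪ B, b (r e) ≤ |x e| ∧ |x e| < t (r e)) (hS : S.Nonempty) (c : E → ℝ)
    (hc : ∀ e, c e = 1 ∨ c e = -1) :
    ∑ e ∈ B, |x e| < |∑ e ∈ S, x e * c e| := by
  have htm : Antitone t := by
    apply antitone_nat_of_succ_le
    intro j
    have h1 : 0 < t (j + 1) := (hb _).trans (hbt _)
    have h2 := hs j
    have h3 := hbt j
    nlinarith
  obtain ⟨e₀, he₀, hmin⟩ := Finset.exists_min_image S r hS
  have hsmall : ∀ e ∈ (S ∪ B).erase e₀, |x e| ≤ t (r e₀ + 1) := by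
    intro e he
    rw [Finset.mem_erase] at he
    refine (hx e he.2).2.le.trans (htm ?_)
    rcases Finset.mem_union.1 he.2 with h | h
    · have h1 := hmin e h
      have h2 := hinj e₀ he₀ e he.2 (Ne.symm he.1)
      omega
    · exact hle e₀ he₀ e h
  have htp : 0 < t (r e₀ + 1) := (hb _).trans (hbt _)
  have hsum : ∑ e ∈ (S ∪ B).erase e₀, |x e| < b (r e₀) := by
    calc ∑ e ∈ (S ∪ B).erase e₀, |x e| ≤ ∑ _e ∈ (S ∪ B).erase e₀, t (r e₀ + 1) :=
          Finset.sum_le_sum hsmall
      _ = ((S ∪ B).erase e₀).card * t (r e₀ + 1) := by rw [Finset.sum_const, nsmul_eq_mul]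
      _ < K * t (r e₀ + 1) := by
          apply mul_lt_mul_of_pos_right _ htp
          refine lt_of_lt_of_le ?_ hcard
          exact_mod_cast Finset.card_erase_lt_of_mem (Finset.mem_union_left _ he₀)
      _ ≤ b (r e₀) := hs _
  have hsplit : ∑ e ∈ (S ∪ B).erase e₀, |x e| = ∑ e ∈ S.erase e₀, |x e| + ∑ e ∈ B, |x e| := by
    rw [← Finset.sum_union]
    · congr 1
      ext e
      simp only [Finset.mem_erase, Finset.mem_union]
      constructor
      · tauto
      · rintro (h | h)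
        · exact ⟨h.1, Or.inl h.2⟩
        · exact ⟨fun h1 => Finset.disjoint_left.1 hSB he₀ (h1 ▸ h), Or.inr h⟩
    · exact hSB.mono_left (Finset.erase_subset _ _)
  have habs : ∀ e, |x e * c e| = |x e| := by
    intro e
    rcases hc e with h | h <;> rw [h] <;> simp
  have h1 : |x e₀| ≤ |∑ e ∈ S, x e * c e| + ∑ e ∈ S.erase e₀, |x e| := by
    have h2 : x e₀ * c e₀ = ∑ e ∈ S, x e * c e - ∑ e ∈ S.erase e₀, x e * c e := by
      rw [← Finset.add_sum_erase S _ he₀]
      ring
    calc |x e₀| = |x e₀ * c e₀| := (habs e₀).symm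
      _ ≤ |∑ e ∈ S, x e * c e| + |∑ e ∈ S.erase e₀, x e * c e| := by rw [h2]; exact abs_sub _ _
      _ ≤ |∑ e ∈ S, x e * c e| + ∑ e ∈ S.erase e₀, |x e| := by
          gcongr
          refine (Finset.abs_sum_le_sum_abs _ _).trans ?_
          exact Finset.sum_le_sum fun e _ => (habs e).le
  have h3 := (hx e₀ (Finset.mem_union_left _ he₀)).1
  linarith

/-! ### Windows on disjoint finite sets are hit infinitely often -/

section

variable {E : Type} (μ : Measure ℝ) [IsProbabilityMeasure μ]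

lemma hit_meas (T : Finset E) (w : E → Set ℝ) (hw : ∀ e, MeasurableSet (w e)) :
    MeasurableSet {J : E → ℝ | ∀ e ∈ T, J e ∈ w e} := by
  have : {J : E → ℝ | ∀ e ∈ T, J e ∈ w e} = ⋂ e ∈ T, (fun J : E → ℝ => J e) ⁻¹' w e := by
    ext J; simp
  rw [this]
  exact Finset.measurableSet_biInter _ fun e _ => (measurable_pi_apply e) (hw e)

lemma hit_often (T : ℕ → Finset E) (hT : ∀ n m, n ≠ m → Disjoint (T n) (T m))
    (w : ℕ → E → Set ℝ) (hw : ∀ n e, MeasurableSet (w n e)) (M : ℕ) (hM : ∀ n, (T n).card ≤ M)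
    (q : ENNReal) (hq : 0 < q) (hq' : ∀ n, ∀ e ∈ T n, q ≤ μ (w n e)) :
    ∀ᵐ J ∂(Measure.infinitePi fun _ : E => μ), ∃ᶠ n in Filter.atTop, ∀ e ∈ T n, J e ∈ w n e := by
  classical
  set W : E → Set ℝ := fun e => if h : ∃ n, e ∈ T n then w (Classical.choose h) e else Set.univ
    with hWd
  have hW : ∀ n, ∀ e ∈ T n, W e = w n e := by
    intro n e he
    have h : ∃ n, e ∈ T n := ⟨n, he⟩
    have h1 : Classical.choose h = n := by
      by_contra hne
      exact Finset.disjoint_left.1 (hT _ _ hne) (Classical.choose_spec h) he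
    simp only [hWd]
    rw [dif_pos h, h1]
  have hWm : ∀ e, MeasurableSet (W e) := by
    intro e
    simp only [hWd]
    split_ifs with h
    · exact hw _ _
    · exact MeasurableSet.univ
  have hset : ∀ n, {J : E → ℝ | ∀ e ∈ T n, J e ∈ w n e} = Set.pi (T n : Set E) W := by
    intro n
    ext J
    simp only [Set.mem_ofPred_eq, Set.mem_pi, Finset.mem_coe]
    refine forall₂_congr fun e he => ?_
    rw [hW n e he]
  have hmeas : ∀ n, MeasurableSet {J : E → ℝ | ∀ e ∈ T n, J e ∈ w n e} :=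
    fun n => hit_meas (T n) (w n) (hw n)
  have hindep : iIndepSet (fun n => {J : E → ℝ | ∀ e ∈ T n, J e ∈ w n e})
      (Measure.infinitePi fun _ : E => μ) := by
    rw [iIndepSet_iff_meas_biInter hmeas]
    intro S
    have hinter : (⋂ n ∈ S, {J : E → ℝ | ∀ e ∈ T n, J e ∈ w n e}) =
        Set.pi ((S.biUnion T : Finset E) : Set E) W := by
      ext J
      simp only [Set.mem_iInter, hset, Set.mem_pi, Finset.coe_biUnion, Set.mem_iUnion,
        Finset.mem_coe]
      constructor
      · rintro h e ⟨k, hk, he⟩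
        exact h k hk e he
      · intro h k hk e he
        exact h e ⟨k, hk, he⟩
    rw [hinter, Measure.infinitePi_pi _ (fun e _ => hWm e), Finset.prod_biUnion]
    · refine Finset.prod_congr rfl fun k _ => ?_
      rw [hset, Measure.infinitePi_pi _ (fun e _ => hWm e)]
    · intro k _ k' _ hkk'
      exact hT k k' hkk'
  have hδ : ∀ n, (min q 1) ^ M ≤
      (Measure.infinitePi fun _ : E => μ) {J : E → ℝ | ∀ e ∈ T n, J e ∈ w n e} := by
    intro n
    rw [hset, Measure.infinitePi_pi _ (fun e _ => hWm e)]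
    calc (min q 1) ^ M ≤ (min q 1) ^ (T n).card :=
          pow_le_pow_right_of_le_one' (min_le_right _ _) (hM n)
      _ ≤ ∏ e ∈ T n, μ (W e) := by
          refine Finset.pow_card_le_prod _ _ _ fun e he => ?_
          rw [hW n e he]
          exact (min_le_left _ _).trans (hq' n e he)
  have hlim := measure_limsup_eq_one (μ := Measure.infinitePi fun _ : E => μ)
    (s := fun n => {J : E → ℝ | ∀ e ∈ T n, J e ∈ w n e}) hmeas hindep (by
      rw [eq_top_iff]
      refine le_trans ?_ (ENNReal.tsum_le_tsum fun n => hδ n)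
      rw [ENNReal.tsum_const_eq_top_of_ne_zero]
      exact pow_ne_zero _ (lt_min hq one_pos).ne')
  have h2 : ∀ᵐ J ∂(Measure.infinitePi fun _ : E => μ), J ∈ Filter.limsup
      (fun n => {J : E → ℝ | ∀ e ∈ T n, J e ∈ w n e}) Filter.atTop := by
    rw [← prob_compl_eq_zero_iff₀] at hlim
    · exact hlim
    · exact (MeasurableSet.measurableSet_limsup hmeas).nullMeasurableSet
  filter_upwards [h2] with J hJ
  rw [Filter.limsup_eq_iInf_iSup_of_nat] at hJ
  rw [Filter.frequently_atTop]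
  intro a
  simp only [Set.iInf_eq_iInter, Set.iSup_eq_iUnion, Set.mem_iInter, Set.mem_iUnion] at hJ
  obtain ⟨b, hb, hJb⟩ := hJ a
  exact ⟨b, hb, hJb⟩

end

/-! ### Good gates -/

section

open Filter

variable {V E : Type} {src tgt : E → V} {k : ℕ} {C : Fin k → ℕ → Finset V}
  {U : Fin k → ℕ → Set V} (μ : Measure ℝ) [IsProbabilityMeasure μ]

/-- the bonds with an end in `C` -/
noncomputable def starF (h : LocFin src tgt) (C : Finset V) : Finset E :=
  (star_finite h C.finite_toSet).toFinset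

lemma mem_starF (h : LocFin src tgt) (C : Finset V) (e : E) :
    e ∈ starF h C ↔ src e ∈ C ∨ tgt e ∈ C := by
  simp [starF]

lemma Ends.star_disj (hE : Ends src tgt k C U) (h : LocFin src tgt) (i : Fin k) {n m : ℕ}
    (hnm : n + 2 ≤ m) : Disjoint (starF h (C i n)) (starF h (C i m)) := by
  rw [Finset.disjoint_left]
  intro e h1 h2
  rw [mem_starF] at h1 h2
  -- everything incident with `C i m` is in `U i (n + 1) ∪ C i (n + 1)`, hence in `U i n`
  have key : ∀ a b : V, (b ∈ U i (n + 1) → a ∈ U i (n + 1) ∨ a ∈ C i (n + 1)) → b ∈ C i m →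
      a ∈ U i n ∧ b ∈ U i n := by
    intro a b hs hb
    have hb' := hE.gate' i (show n + 1 < m by omega) b hb
    refine ⟨?_, hE.tail i n b hb'⟩
    rcases hs hb' with h3 | h3
    · exact hE.tail i n a h3
    · exact hE.gate i n a h3
  have hs := hE.sep i (n + 1) e
  have hboth : src e ∈ U i n ∧ tgt e ∈ U i n := by
    rcases h2 with h2 | h2
    · have := key (tgt e) (src e) hs.1 h2
      exact ⟨this.2, this.1⟩
    · exact key (src e) (tgt e) hs.2 h2
  rcases h1 with h1 | h1
  · exact hE.disj i n _ h1 hboth.1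
  · exact hE.disj i n _ h1 hboth.2

theorem Ends.good_ae (hE : Ends src tgt k C U) (h : LocFin src tgt) (M : ℕ)
    (hM : ∀ i n, (starF h (C i n)).card ≤ M) (hat : μ {0} = 0)
    (h0 : ∀ ε : ℝ, 0 < ε → 0 < μ {x : ℝ | |x| < ε}) (i : Fin k) (ε : ℝ) (hε : 0 < ε) :
    ∀ᵐ J ∂(Measure.infinitePi fun _ : E => μ), ∃ᶠ n in atTop, Good h J (C i n) ε := by
  classical
  obtain ⟨b, t, hb, hbt, hs, ht0, hpos⟩ := scales μ hat h0 (M + 1 : ℝ)
    (by linarith [Nat.cast_nonneg (α := ℝ) M]) (ε / (M + 1)) (by positivity)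
  have htm : Antitone t := by
    apply antitone_nat_of_succ_le
    intro j
    have h1 : 0 < t (j + 1) := (hb _).trans (hbt _)
    have h2 := hs j
    have h3 := hbt j
    have h4 : (0 : ℝ) ≤ M := Nat.cast_nonneg M
    nlinarith
  -- ranks
  set r : ℕ → E → ℕ := fun n e => if he : e ∈ inn h (C i n) then
    ((inn h (C i n)).equivFin ⟨e, he⟩ : ℕ) else M with hr
  have hsub : ∀ n, inn h (C i n) ⊆ starF h (C i n) := by
    intro n e he
    rw [mem_inn] at he
    rw [mem_starF]
    exact Or.inl he.1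
  have hsub' : ∀ n, bd h (C i n) ⊆ starF h (C i n) := by
    intro n e he
    rw [mem_bd] at he
    rw [mem_starF]
    tauto
  have hdis : ∀ n, Disjoint (inn h (C i n)) (bd h (C i n)) := by
    intro n
    rw [Finset.disjoint_left]
    intro e h1 h2
    rw [mem_inn] at h1
    rw [mem_bd] at h2
    exact h2 ⟨fun _ => h1.2, fun _ => h1.1⟩
  have hr1 : ∀ n, ∀ e ∈ inn h (C i n), r n e < M := by
    intro n e he
    simp only [hr]
    rw [dif_pos he]
    exact (Fin.is_lt _).trans_le ((Finset.card_le_card (hsub n)).trans (hM i n))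
  have hr2 : ∀ n, ∀ e, e ∉ inn h (C i n) → r n e = M := by
    intro n e he
    simp only [hr]
    rw [dif_neg he]
  have hr3 : ∀ n, ∀ e ∈ inn h (C i n), ∀ e' ∈ inn h (C i n), e ≠ e' → r n e ≠ r n e' := by
    intro n e he e' he' hne
    simp only [hr]
    rw [dif_pos he, dif_pos he']
    intro hcon
    have h1 := (inn h (C i n)).equivFin.injective (Fin.ext hcon)
    exact hne (congrArg Subtype.val h1)
  have hrM : ∀ n e, r n e ≤ M := by
    intro n e
    by_cases he : e ∈ inn h (C i n)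
    · exact (hr1 n e he).le
    · exact (hr2 n e he).le
  -- lower bound of the masses
  obtain ⟨q, hq0, hq⟩ : ∃ q : ENNReal, 0 < q ∧
      ∀ j ≤ M, q ≤ μ {x : ℝ | b j ≤ |x| ∧ |x| < t j} := by
    obtain ⟨j₀, hj₀, hmin⟩ := Finset.exists_min_image (Finset.range (M + 1))
      (fun j => μ {x : ℝ | b j ≤ |x| ∧ |x| < t j}) ⟨0, Finset.mem_range.2 (Nat.succ_pos M)⟩
    exact ⟨_, hpos j₀, fun j hj => hmin j (Finset.mem_range.2 (by omega))⟩
  have hoft := hit_often μ (fun n => starF h (C i (2 * n)))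
    (by
      intro n m hnm
      rcases lt_or_gt_of_ne hnm with h1 | h1
      · exact hE.star_disj h i (by omega)
      · exact (hE.star_disj h i (by omega)).symm)
    (fun n e => {x : ℝ | b (r (2 * n) e) ≤ |x| ∧ |x| < t (r (2 * n) e)})
    (fun n e => (measurableSet_le measurable_const continuous_abs.measurable).inter
      (measurableSet_lt continuous_abs.measurable measurable_const)) M
    (fun n => hM i (2 * n)) q hq0 (fun n e _ => hq _ (hrM _ _))
  filter_upwards [hoft] with J hJ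
  have hgood : ∀ n, (∀ e ∈ starF h (C i n), b (r n e) ≤ |J e| ∧ |J e| < t (r n e)) →
      Good h J (C i n) ε := by
    intro n hn
    refine ⟨fun S hS hSne c hc => ?_, ?_⟩
    · have hSB : S ∪ bd h (C i n) ⊆ starF h (C i n) :=
        Finset.union_subset (hS.trans (hsub n)) (hsub' n)
      refine dominate b t (M + 1) hb hbt (by linarith [Nat.cast_nonneg (α := ℝ) M]) hs S
        (bd h (C i n)) (r n) J ((hdis n).mono_left hS) ?_ ?_ ?_ (fun e he => hn e (hSB he)) hSne c hc
      · have := (Finset.card_le_card hSB).trans (hM i n)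
        have h1 : ((S ∪ bd h (C i n)).card : ℝ) ≤ M := by exact_mod_cast this
        linarith
      · intro e he e' he' hne
        rcases Finset.mem_union.1 he' with h1 | h1
        · exact hr3 n e (hS he) e' (hS h1) hne
        · have h2 := hr1 n e (hS he)
          have h3 := hr2 n e' (fun h4 => Finset.disjoint_left.1 (hdis n) h4 h1)
          omega
      · intro e he e' he'
        have h2 := hr1 n e (hS he)
        have h3 := hr2 n e' (fun h4 => Finset.disjoint_left.1 (hdis n) h4 he')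
        omega
    · calc ∑ e ∈ bd h (C i n), |J e| ≤ ∑ _e ∈ bd h (C i n), ε / (M + 1) := by
            refine Finset.sum_le_sum fun e he => ?_
            exact (hn e (hsub' n he)).2.le.trans ((htm (Nat.zero_le _)).trans ht0)
        _ = (bd h (C i n)).card * (ε / (M + 1)) := by rw [Finset.sum_const, nsmul_eq_mul]
        _ ≤ M * (ε / (M + 1)) := by
            apply mul_le_mul_of_nonneg_right _ (by positivity)
            exact_mod_cast (Finset.card_le_card (hsub' n)).trans (hM i n)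
        _ < ε := by
            rw [← mul_div_assoc, div_lt_iff₀ (by positivity)]
            nlinarith [Nat.cast_nonneg (α := ℝ) M]
  rw [frequently_atTop] at hJ ⊢
  intro a
  obtain ⟨n, hn1, hn2⟩ := hJ a
  exact ⟨2 * n, by omega, hgood (2 * n) hn2⟩

/-- **Existence and uniqueness, almost surely.** -/
theorem Ends.main [Infinite V] [Countable E] (hE : Ends src tgt k C U) (h : LocFin src tgt)
    (hV : ∀ A : Set V, A.Nonempty → A ≠ Set.univ → (cut src tgt A).Nonempty) (M : ℕ)
    (hM : ∀ i n, (starF h (C i n)).card ≤ M) (hat : ∀ x, μ {x} = 0)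
    (h0 : ∀ ε : ℝ, 0 < ε → 0 < μ {x : ℝ | |x| < ε}) :
    ∀ᵐ J ∂(Measure.infinitePi fun _ : E => μ), ∃ σ, Gr h J σ ∧
      ∀ τ, Gr h J τ → τ = σ ∨ τ = -σ := by
  classical
  have h1 : ∀ᵐ J ∂(Measure.infinitePi fun _ : E => μ), ∀ i, ∀ m : ℕ,
      ∃ᶠ n in atTop, Good h J (C i n) (1 / (m + 1 : ℝ)) := by
    rw [ae_all_iff]; intro i
    rw [ae_all_iff]; intro m
    exact hE.good_ae μ h M hM (hat 0) h0 i _ (by positivity)
  have h2 : ∀ᵐ J ∂(Measure.infinitePi fun _ : E => μ), ∀ F B : Finset E, F.Nonempty →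
      ∑ e ∈ F, J e * (if e ∈ B then (-1 : ℝ) else 1) ≠ 0 := by
    rw [ae_all_iff]; intro F
    rw [ae_all_iff]; intro B
    by_cases hF : F.Nonempty
    · obtain ⟨e₀, he₀⟩ := hF
      have h3 := Pool.Agent.TH761.EA.lin_null μ hat F (fun e => if e ∈ B then (-1 : ℝ) else 1) he₀
        (by split_ifs <;> norm_num)
      rw [← compl_compl {J : E → ℝ | _}] at h3
      have h4 : ∀ᵐ J ∂(Measure.infinitePi fun _ : E => μ),
          J ∈ {J : E → ℝ | ∑ e ∈ F, J e * (if e ∈ B then (-1 : ℝ) else 1) = 0}ᶜ := h3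
      filter_upwards [h4] with J hJ _
      exact hJ
    · exact Filter.Eventually.of_forall fun J hJ => absurd hJ hF
  filter_upwards [h1, h2] with J hJ1 hJ2
  have hJ : ∀ F : Finset E, F.Nonempty → ∀ c : E → ℝ, (∀ e, c e = 1 ∨ c e = -1) →
      ∑ e ∈ F, J e * c e ≠ 0 := by
    intro F hF c hc
    have := hJ2 F (F.filter fun e => c e = -1) hF
    intro hcon
    apply this
    rw [← hcon]
    refine Finset.sum_congr rfl fun e he => ?_
    rcases hc e with h3 | h3
    · rw [h3, if_neg]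
      rw [Finset.mem_filter, h3]
      norm_num
    · rw [h3, if_pos]
      rw [Finset.mem_filter]
      exact ⟨he, h3⟩
  have hg : ∀ i, ∀ ε > 0, ∃ᶠ n in atTop, Good h J (C i n) ε := by
    intro i ε hε
    obtain ⟨m, hm⟩ := exists_nat_one_div_lt hε
    exact (hJ1 i m).mono fun n hn => ⟨hn.1, hn.2.trans hm⟩
  obtain ⟨σ, hσ⟩ := exists_gr h hV hJ
  exact ⟨σ, hσ, fun τ hτ => hE.uniq hV hJ hg hσ hτ⟩

end

end Pool.Agent.X73.EA
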