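import Pool.Agent.X73.EA.Det

/-! # Uniqueness of the pair of ground states, deterministic part -/

set_option autoImplicit false

namespace Pool.Agent.X73.EA

open Finset Filter

variable {V E : Type} {src tgt : E → V} {k : ℕ} {C : Fin k → ℕ → Finset V} {U : Fin k → ℕ → Set V}

lemma Ends.side (hE : Ends src tgt k C U) {h : LocFin src tgt} {J : E → ℝ} {σ τ : V → ℝ}
    (hσ : Gr h J σ) (hτ : Gr h J τ)
    (hg : ∀ i, ∀ ε > 0, ∃ᶠ n in atTop, Good h J (C i n) ε) (i : Fin k) :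
    ∃ N, ((∀ v ∈ U i N, v ∈ ag σ τ) ∧ ∀ v ∈ C i N, v ∈ ag σ τ) ∨
      ((∀ v ∈ U i N, v ∉ ag σ τ) ∧ ∀ v ∈ C i N, v ∉ ag σ τ) := by
  have hX1 : ∀ A : Finset V, A.Nonempty → ¬ cut src tgt (A : Set V) ⊆ cut src tgt (ag σ τ) :=
    fun A hA => no_island hσ hτ A hA
  have hX2 : ∀ A : Finset V, A.Nonempty → ¬ cut src tgt (A : Set V) ⊆ cut src tgt (ag σ τ)ᶜ := by
    intro A hA
    rw [cut_compl]
    exact hX1 A hA
  have hfr : ∃ᶠ n in atTop, (C i n : Set V) ⊆ ag σ τ ∨ (C i n : Set V) ⊆ (ag σ τ)ᶜ :=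
    (hg i 1 one_pos).mono fun n hn => gate_const hσ hτ (hE.conn i n) hn
  have hmain : ∀ X : Set V,
      (∀ A : Finset V, A.Nonempty → ¬ cut src tgt (A : Set V) ⊆ cut src tgt X) →
      (∃ᶠ n in atTop, (C i n : Set V) ⊆ X) →
      ∃ N, (∀ v ∈ U i N, v ∈ X) ∧ ∀ v ∈ C i N, v ∈ X := by
    intro X hX hf
    obtain ⟨n, hn⟩ := hf.exists
    refine ⟨n, fun v hv => ?_, fun v hv => hn (by simpa using hv)⟩
    obtain ⟨m, hm⟩ := hE.inter i v
    obtain ⟨m', hm'1, hm'2⟩ := (frequently_atTop.1 hf) (max m n + 1)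
    exact hE.between hX i (by omega) hn hm'2 v hv fun hcon => hm (hE.mono i (by omega) v hcon)
  rw [frequently_or_distrib] at hfr
  rcases hfr with hf | hf
  · obtain ⟨N, h1⟩ := hmain _ hX1 hf
    exact ⟨N, Or.inl h1⟩
  · obtain ⟨N, h1⟩ := hmain _ hX2 hf
    exact ⟨N, Or.inr h1⟩

/-- the wall between two ground states has nonnegative energy -/
lemma Ends.wall (hE : Ends src tgt k C U) {h : LocFin src tgt} {J : E → ℝ} {σ τ : V → ℝ}
    (hσ : Gr h J σ) (hg : ∀ i, ∀ ε > 0, ∃ᶠ n in atTop, Good h J (C i n) ε)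
    (N : Fin k → ℕ)
    (hN : ∀ i, ((∀ v ∈ U i (N i), v ∈ ag σ τ) ∧ ∀ v ∈ C i (N i), v ∈ ag σ τ) ∨
      ((∀ v ∈ U i (N i), v ∉ ag σ τ) ∧ ∀ v ∈ C i (N i), v ∉ ag σ τ))
    (v₀ : V) (hv₀ : v₀ ∉ ag σ τ) (W : Finset E) (hW : ∀ e, e ∈ W ↔ e ∈ cut src tgt (ag σ τ)) :
    0 ≤ ∑ e ∈ W, J e * (σ (src e) * σ (tgt e)) := by
  classical
  by_contra hneg
  push Not at hneg
  set D := ∑ e ∈ W, J e * (σ (src e) * σ (tgt e)) with hD
  have hε : 0 < -D / (k + 1) := by
    apply div_pos (by linarith)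
    positivity
  have hex : ∀ i, ∃ n, N i < n ∧ Good h J (C i n) (-D / (k + 1)) ∧ v₀ ∉ U i n ∧ v₀ ∉ C i n := by
    intro i
    obtain ⟨n, hn1, hn2, hn3⟩ := ((hg i _ hε).and_eventually
      ((hE.avoid v₀ i).and (eventually_gt_atTop (N i)))).exists
    exact ⟨n, hn3, hn1, hn2.1, hn2.2⟩
  choose m hm1 hm2 hm3 hm4 using hex
  set I : Set (Fin k) := {i | (∀ v ∈ U i (N i), v ∉ ag σ τ) ∧ ∀ v ∈ C i (N i), v ∉ ag σ τ} with hI
  have hA : {v | v ∉ ag σ τ ∧ ∀ i ∈ I, v ∉ U i (m i) ∧ v ∉ C i (m i)}.Finite := by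
    refine (hE.core' m).subset ?_
    rintro v ⟨hv1, hv2⟩ i hi
    by_cases hiI : i ∈ I
    · exact (hv2 i hiI).1 hi
    · rcases hN i with h1 | h1
      · exact hv1 (h1.1 v (hE.mono i (hm1 i).le v hi))
      · exact hiI h1
  set A := hA.toFinset with hAd
  have memA : ∀ v, v ∈ A ↔ v ∉ ag σ τ ∧ ∀ i ∈ I, v ∉ U i (m i) ∧ v ∉ C i (m i) := by
    intro v
    rw [hAd, Set.Finite.mem_toFinset, Set.mem_ofPred_eq]
  have hAne : A.Nonempty := ⟨v₀, (memA v₀).2 ⟨hv₀, fun i _ => ⟨hm3 i, hm4 i⟩⟩⟩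
  have hpos := hσ.2 A hAne
  -- the walls are in the boundary of `A`
  have hone : ∀ a b : V, (∀ i, (b ∈ U i (m i) → a ∈ U i (m i) ∨ a ∈ C i (m i))) →
      (∀ i, (b ∈ U i (N i) → a ∈ U i (N i) ∨ a ∈ C i (N i))) → a ∈ ag σ τ → b ∉ ag σ τ → b ∈ A := by
    intro a b _ hs2 ha hb
    rw [memA]
    refine ⟨hb, fun i hi => ?_⟩
    have hcon : b ∉ U i (N i) := by
      intro hb1
      rcases hs2 i hb1 with h1 | h1
      · exact hi.1 a h1 ha
      · exact hi.2 a h1 ha
    exact ⟨fun h1 => hcon (hE.mono i (hm1 i).le b h1), fun h1 => hcon (hE.gate' i (hm1 i) b h1)⟩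
  have hWA : W ⊆ bd h A := by
    intro e he
    rw [hW] at he
    rw [mem_bd]
    simp only [cut, Set.mem_ofPred_eq] at he
    intro hiff
    by_cases h1 : src e ∈ ag σ τ
    · have h2 : tgt e ∉ ag σ τ := fun h2 => he ⟨fun _ => h2, fun _ => h1⟩
      have h3 := hone (src e) (tgt e) (fun i => (hE.sep i (m i) e).2)
        (fun i => (hE.sep i (N i) e).2) h1 h2
      exact ((memA _).1 (hiff.2 h3)).1 h1
    · have h2 : tgt e ∈ ag σ τ := by
        by_contra h2
        exact he ⟨fun h3 => absurd h3 h1, fun h3 => absurd h3 h2⟩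
      have h3 := hone (tgt e) (src e) (fun i => (hE.sep i (m i) e).1)
        (fun i => (hE.sep i (N i) e).1) h2 h1
      exact ((memA _).1 (hiff.1 h3)).1 h2
  -- the other bonds in the boundary of `A` are in the boundaries of the gates
  have htwo : ∀ a b : V, (∀ i, (b ∈ U i (m i) → a ∈ U i (m i) ∨ a ∈ C i (m i))) → a ∈ A →
      b ∉ A → b ∉ ag σ τ → ∃ i, b ∈ C i (m i) ∧ a ∉ C i (m i) := by
    intro a b hs ha hb hb'
    rw [memA] at ha hb
    have : ∃ i ∈ I, b ∈ U i (m i) ∨ b ∈ C i (m i) := by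
      by_contra hcon
      push Not at hcon
      exact hb ⟨hb', hcon⟩
    obtain ⟨i, hi, h1 | h1⟩ := this
    · rcases hs i h1 with h2 | h2
      · exact absurd h2 (ha.2 i hi).1
      · exact absurd h2 (ha.2 i hi).2
    · exact ⟨i, h1, (ha.2 i hi).2⟩
  have hrest : ∀ e ∈ bd h A \ W, ∃ i, e ∈ bd h (C i (m i)) := by
    intro e he
    rw [Finset.mem_sdiff, mem_bd, hW] at he
    obtain ⟨he1, he2⟩ := he
    simp only [cut, Set.mem_ofPred_eq, not_not] at he2
    by_cases h1 : src e ∈ A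
    · have h2 : tgt e ∉ A := fun h2 => he1 ⟨fun _ => h2, fun _ => h1⟩
      have h3 : tgt e ∉ ag σ τ := fun h3 => ((memA _).1 h1).1 (he2.2 h3)
      obtain ⟨i, hi1, hi2⟩ := htwo (src e) (tgt e) (fun i => (hE.sep i (m i) e).2) h1 h2 h3
      refine ⟨i, ?_⟩
      rw [mem_bd]
      exact fun hh => hi2 (hh.2 hi1)
    · have h2 : tgt e ∈ A := by
        by_contra h2
        exact he1 ⟨fun h3 => absurd h3 h1, fun h3 => absurd h3 h2⟩
      have h3 : src e ∉ ag σ τ := fun h3 => ((memA _).1 h2).1 (he2.1 h3)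
      obtain ⟨i, hi1, hi2⟩ := htwo (tgt e) (src e) (fun i => (hE.sep i (m i) e).1) h2 h1 h3
      refine ⟨i, ?_⟩
      rw [mem_bd]
      exact fun hh => hi2 (hh.1 hi1)
  have hsum : ∑ e ∈ bd h A, J e * (σ (src e) * σ (tgt e)) =
      D + ∑ e ∈ bd h A \ W, J e * (σ (src e) * σ (tgt e)) := by
    rw [hD, add_comm, Finset.sum_sdiff hWA]
  have hle : ∑ e ∈ bd h A \ W, J e * (σ (src e) * σ (tgt e)) ≤
      ∑ i : Fin k, ∑ e ∈ bd h (C i (m i)), |J e| := by
    calc ∑ e ∈ bd h A \ W, J e * (σ (src e) * σ (tgt e))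
        ≤ ∑ e ∈ bd h A \ W, ∑ i : Fin k, (if e ∈ bd h (C i (m i)) then |J e| else 0) := by
          refine Finset.sum_le_sum fun e he => ?_
          obtain ⟨i, hi⟩ := hrest e he
          have h1 : J e * (σ (src e) * σ (tgt e)) ≤ |J e| := by
            rcases conf_mul hσ.1 (src e) (tgt e) with h2 | h2 <;> rw [h2]
            · rw [mul_one]; exact le_abs_self _
            · rw [mul_neg, mul_one]; exact neg_le_abs _
          refine h1.trans ?_
          have h2 : (if e ∈ bd h (C i (m i)) then |J e| else 0) ≤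
              ∑ i : Fin k, (if e ∈ bd h (C i (m i)) then |J e| else 0) :=
            Finset.single_le_sum (f := fun i => if e ∈ bd h (C i (m i)) then |J e| else 0)
              (fun j _ => by split_ifs <;> positivity) (Finset.mem_univ i)
          rw [if_pos hi] at h2
          exact h2
      _ = ∑ i : Fin k, ∑ e ∈ bd h A \ W, (if e ∈ bd h (C i (m i)) then |J e| else 0) :=
          Finset.sum_comm
      _ ≤ ∑ i : Fin k, ∑ e ∈ bd h (C i (m i)), |J e| := by
          refine Finset.sum_le_sum fun i _ => ?_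
          rw [← Finset.sum_filter]
          refine Finset.sum_le_sum_of_subset_of_nonneg ?_ fun e _ _ => abs_nonneg _
          intro e he
          exact (Finset.mem_filter.1 he).2
  have hlt : ∑ i : Fin k, ∑ e ∈ bd h (C i (m i)), |J e| ≤ k * (-D / (k + 1)) := by
    calc ∑ i : Fin k, ∑ e ∈ bd h (C i (m i)), |J e| ≤ ∑ _i : Fin k, (-D / (k + 1)) :=
          Finset.sum_le_sum fun i _ => (hm2 i).2.le
      _ = k * (-D / (k + 1)) := by simp
  have hfin : (k : ℝ) * (-D / (k + 1)) < -D := by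
    rw [← mul_div_assoc, div_lt_iff₀ (by positivity)]
    nlinarith
  linarith

/-- **Uniqueness.** -/
theorem Ends.uniq (hE : Ends src tgt k C U) {h : LocFin src tgt}
    (hV : ∀ A : Set V, A.Nonempty → A ≠ Set.univ → (cut src tgt A).Nonempty) {J : E → ℝ}
    (hJ : ∀ F : Finset E, F.Nonempty → ∀ c : E → ℝ, (∀ e, c e = 1 ∨ c e = -1) →
      ∑ e ∈ F, J e * c e ≠ 0)
    (hg : ∀ i, ∀ ε > 0, ∃ᶠ n in atTop, Good h J (C i n) ε) {σ τ : V → ℝ}
    (hσ : Gr h J σ) (hτ : Gr h J τ) : τ = σ ∨ τ = -σ := by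
  classical
  choose N hN using fun i => hE.side hσ hτ hg i
  have hagc : ∀ v, v ∉ ag σ τ → τ v = - σ v := by
    intro v hv
    simp only [ag, Set.mem_ofPred_eq] at hv
    rcases hσ.1 v with a | a <;> rcases hτ.1 v with b | b <;> rw [a, b] at hv ⊢ <;>
      first | (norm_num; done) | exact absurd rfl hv
  by_cases hall : ∀ i, ((∀ v ∈ U i (N i), v ∈ ag σ τ) ∧ ∀ v ∈ C i (N i), v ∈ ag σ τ)
  · -- agreement at all ends
    left
    have hfin : (ag σ τ)ᶜ.Finite := (hE.core' N).subset fun v hv i hi => hv ((hall i).1 v hi)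
    by_contra hne
    have hnon : hfin.toFinset.Nonempty := by
      by_contra hemp
      rw [Finset.not_nonempty_iff_eq_empty] at hemp
      apply hne
      funext v
      by_contra hv
      have : v ∈ hfin.toFinset := by
        rw [Set.Finite.mem_toFinset]
        intro hcon
        exact hv (by simpa [ag] using hcon.symm)
      rw [hemp] at this
      simp at this
    apply no_island hσ hτ hfin.toFinset hnon
    rw [Set.Finite.coe_toFinset, cut_compl]
  · by_cases hall' : ∀ i, ((∀ v ∈ U i (N i), v ∉ ag σ τ) ∧ ∀ v ∈ C i (N i), v ∉ ag σ τ)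
    · right
      have hfin : (ag σ τ).Finite := (hE.core' N).subset fun v hv i hi => (hall' i).1 v hi hv
      by_contra hne
      have hnon : hfin.toFinset.Nonempty := by
        by_contra hemp
        rw [Finset.not_nonempty_iff_eq_empty] at hemp
        apply hne
        funext v
        apply hagc
        intro hcon
        have : v ∈ hfin.toFinset := by rwa [Set.Finite.mem_toFinset]
        rw [hemp] at this
        simp at this
      apply no_island hσ hτ hfin.toFinset hnon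
      rw [Set.Finite.coe_toFinset]
    · exfalso
      push Not at hall hall'
      -- a vertex on each side
      have h1 : ∃ v, v ∉ ag σ τ := by
        obtain ⟨i, hi⟩ := hall
        rcases hN i with h2 | h2
        · obtain ⟨v, hv, hv'⟩ := hi h2.1
          exact ⟨v, hv'⟩
        · obtain ⟨v, hv⟩ := hE.ne i (N i)
          exact ⟨v, h2.2 v hv⟩
      have h2 : ∃ v, v ∈ ag σ τ := by
        obtain ⟨i, hi⟩ := hall'
        rcases hN i with h2 | h2
        · obtain ⟨v, hv⟩ := hE.ne i (N i)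
          exact ⟨v, h2.2 v hv⟩
        · obtain ⟨v, hv, hv'⟩ := hi h2.1
          exact ⟨v, hv'⟩
      obtain ⟨v₀, hv₀⟩ := h1
      obtain ⟨v₁, hv₁⟩ := h2
      have hWf : (cut src tgt (ag σ τ)).Finite := by
        refine (star_finite h (hE.core' N)).subset ?_
        intro e he
        by_contra hcon
        simp only [Set.mem_ofPred_eq, not_or, not_forall, not_not] at hcon
        obtain ⟨⟨i, hi⟩, _⟩ := hcon
        apply he
        have hs := (hE.sep i (N i) e).1 hi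
        rcases hN i with h3 | h3
        · exact ⟨fun _ => hs.elim (h3.1 _) (h3.2 _), fun _ => h3.1 _ hi⟩
        · exact ⟨fun h4 => absurd h4 (h3.1 _ hi), fun h4 => absurd h4 (hs.elim (h3.1 _) (h3.2 _))⟩
      have hag : ag τ σ = ag σ τ := by
        ext v
        simp only [ag, Set.mem_ofPred_eq]
        exact eq_comm
      have hWm : ∀ e, e ∈ hWf.toFinset ↔ e ∈ cut src tgt (ag σ τ) := fun e => by
        rw [Set.Finite.mem_toFinset]
      have k1 := hE.wall hσ hg N hN v₀ hv₀ hWf.toFinset hWm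
      have k2 := hE.wall (σ := τ) (τ := σ) hτ hg N (by rw [hag]; exact hN) v₀ (by rwa [hag])
        hWf.toFinset (by rw [hag]; exact hWm)
      have k3 : ∑ e ∈ hWf.toFinset, J e * (τ (src e) * τ (tgt e)) =
          - ∑ e ∈ hWf.toFinset, J e * (σ (src e) * σ (tgt e)) := by
        rw [← Finset.sum_neg_distrib]
        refine Finset.sum_congr rfl fun e he => ?_
        rw [hWm] at he
        rw [prod_diff hσ.1 hτ.1 he]
        ring
      have hne : (cut src tgt (ag σ τ)).Nonempty :=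
        hV _ ⟨v₁, hv₁⟩ fun hcon => hv₀ (by rw [hcon]; trivial)
      obtain ⟨e, he⟩ := hne
      apply hJ hWf.toFinset ⟨e, (hWm e).2 he⟩ (fun e => σ (src e) * σ (tgt e))
        (fun e => conf_mul hσ.1 _ _)
      linarith

end Pool.Agent.X73.EA
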